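import Mathlib
import Pool.Agent.Helper764.JumpDefs
import Pool.Agent.Helper764.Jump_lower
import Pool.Agent.Helper764.Jump_upper
import Pool.Agent.Helper764.Jump_zero

set_option autoImplicit false

open Finset Filter

namespace Pool.Agent.Results.MP_cdf3db_co.OneJump

/-- The colouring `χ` (only its values on the `t`-subsets matter) of the `t`-element subsets of
an `n`-set is `α`-balanced above `f`: every `X` with `|X| ≥ f` has more than `α * choose |X| t`
of its `t`-subsets in each of the two colour classes. -/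
def Balanced (t n : ℕ) (α : ℝ) (f : ℕ) (χ : Finset (Fin n) → Bool) : Prop :=
  ∀ X : Finset (Fin n), f ≤ X.card → ∀ c : Bool,
    α * (X.card.choose t : ℝ) < (((X.powersetCard t).filter (fun e => χ e = c)).card : ℝ)

/-- `F t n α` is the least `f` for which some 2-colouring of the `t`-subsets of an `n`-set is
`α`-balanced above `f`. -/
noncomputable def F (t n : ℕ) (α : ℝ) : ℕ :=
  sInf {f : ℕ | ∃ χ : Finset (Fin n) → Bool, Balanced t n α f χ}

/-- The set in the definition of `F` is never empty. -/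
theorem F_spec (t n : ℕ) (α : ℝ) : ∃ χ : Finset (Fin n) → Bool, Balanced t n α (F t n α) χ := by
  have h : (n + 1) ∈ {f : ℕ | ∃ χ : Finset (Fin n) → Bool, Balanced t n α f χ} := by
    refine ⟨fun _ => true, fun X hX => ?_⟩
    have := Finset.card_le_univ X
    rw [Fintype.card_fin] at this
    omega
  exact Nat.sInf_mem ⟨_, h⟩

/-- `F` does not decrease when `α` increases. -/
theorem F_mono (t n : ℕ) {α β : ℝ} (h : α ≤ β) : F t n α ≤ F t n β := by
  obtain ⟨χ, hχ⟩ := F_spec t n β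
  refine Nat.sInf_le ⟨χ, fun X hX c => lt_of_le_of_lt ?_ (hχ X hX c)⟩
  exact mul_le_mul_of_nonneg_right h (Nat.cast_nonneg _)

/-- **Order of magnitude of the discrepancy Ramsey function.**
For every `t ≥ 3` and every `0 < α < 1/2` the order of `F^{(t)}(n, α)` is `(log n)^{1/(t-1)}`,
so the order does not change on `(0, 1/2)`; for `t ≥ 4` there is a jump at `α = 0`:
`F^{(t)}(n, 0) = O(log log n)`, hence `F^{(t)}(n, 0) / F^{(t)}(n, α) → 0` for every `α > 0`. -/
theorem result :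
    (∀ t : ℕ, 3 ≤ t → ∀ α : ℝ, 0 < α → α < 1 / 2 → ∃ c C : ℝ, 0 < c ∧ 0 < C ∧
      ∀ᶠ n : ℕ in atTop,
        c * (Real.log n) ^ (1 / ((t : ℝ) - 1)) ≤ (F t n α : ℝ) ∧
        (F t n α : ℝ) ≤ C * (Real.log n) ^ (1 / ((t : ℝ) - 1))) ∧
    (∀ t : ℕ, 4 ≤ t → ∃ C : ℝ, 0 < C ∧ ∀ᶠ n : ℕ in atTop,
      (F t n 0 : ℝ) ≤ C * Real.log (Real.log n)) ∧
    (∀ t : ℕ, 4 ≤ t → ∀ α : ℝ, 0 < α → α < 1 / 2 →
      Tendsto (fun n : ℕ => (F t n 0 : ℝ) / (F t n α : ℝ)) atTop (nhds 0)) := by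
  have hlow := Jump764.M_lower.J_lower
  have hup := Jump764.M_upper.J_upper
  have hz := Jump764.M_zero.J_zero
  have h1 : ∀ t : ℕ, 3 ≤ t → ∀ α : ℝ, 0 < α → α < 1 / 2 → ∃ c C : ℝ, 0 < c ∧ 0 < C ∧
      ∀ᶠ n : ℕ in atTop,
        c * (Real.log n) ^ (1 / ((t : ℝ) - 1)) ≤ (F t n α : ℝ) ∧
        (F t n α : ℝ) ≤ C * (Real.log n) ^ (1 / ((t : ℝ) - 1)) := by
    intro t ht α h0 h1
    obtain ⟨c, hc, hc'⟩ := hlow t (by omega) α h0
    obtain ⟨C, hC, hC'⟩ := hup t (by omega) α h1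
    exact ⟨c, C, hc, hC, hc'.and hC'⟩
  have h2 : ∀ t : ℕ, 4 ≤ t → ∃ C : ℝ, 0 < C ∧ ∀ᶠ n : ℕ in atTop,
      (F t n 0 : ℝ) ≤ C * Real.log (Real.log n) := hz
  refine ⟨h1, h2, ?_⟩
  intro t ht α h0 hα
  obtain ⟨c, C, hc, hC, h⟩ := h1 t (by omega) α h0 hα
  obtain ⟨K, hK, hK'⟩ := h2 t ht
  have ht1 : (0 : ℝ) < 1 / ((t : ℝ) - 1) := by
    have : (4 : ℝ) ≤ t := by exact_mod_cast ht
    apply one_div_pos.2
    linarith
  -- log log n / (log n)^e → 0
  have hlim : Tendsto (fun n : ℕ => Real.log (Real.log n) / (Real.log n) ^ (1 / ((t : ℝ) - 1)))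
      atTop (nhds 0) := by
    have h3 : Tendsto (fun x : ℝ => Real.log x / x ^ (1 / ((t : ℝ) - 1))) atTop (nhds 0) :=
      (isLittleO_log_rpow_atTop ht1).tendsto_div_nhds_zero
    exact h3.comp (Real.tendsto_log_atTop.comp tendsto_natCast_atTop_atTop)
  have hlim2 : Tendsto (fun n : ℕ => (K / c) *
      (Real.log (Real.log n) / (Real.log n) ^ (1 / ((t : ℝ) - 1)))) atTop (nhds 0) := by
    simpa using hlim.const_mul (K / c)
  refine squeeze_zero' (Eventually.of_forall fun n => by positivity) ?_ hlim2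
  have hlog : ∀ᶠ n : ℕ in atTop, 0 < Real.log n :=
    (Real.tendsto_log_atTop.comp tendsto_natCast_atTop_atTop).eventually_gt_atTop 0
  filter_upwards [h, hK', hlog] with n hn hn' hn0
  have hpow : 0 < (Real.log n) ^ (1 / ((t : ℝ) - 1)) := Real.rpow_pos_of_pos hn0 _
  have hF : 0 < (F t n α : ℝ) := lt_of_lt_of_le (mul_pos hc hpow) hn.1
  have hKlog : 0 ≤ K * Real.log (Real.log n) := le_trans (Nat.cast_nonneg _) hn'
  calc (F t n 0 : ℝ) / (F t n α : ℝ) ≤ (K * Real.log (Real.log n)) / (F t n α : ℝ) :=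
        div_le_div_of_nonneg_right hn' hF.le
    _ ≤ (K * Real.log (Real.log n)) / (c * (Real.log n) ^ (1 / ((t : ℝ) - 1))) :=
        div_le_div_of_nonneg_left hKlog (mul_pos hc hpow) hn.1
    _ = (K / c) * (Real.log (Real.log n) / (Real.log n) ^ (1 / ((t : ℝ) - 1))) := by
        field_simp

end Pool.Agent.Results.MP_cdf3db_co.OneJump
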